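import Mathlib
import Pool.Agent.D0H53.EB.L13

/-!
# The Birch–Swinnerton-Dyer product over all elliptic curves in a box

All curves `y² = x³ + a x + b` with `(a, b)` in a box with sides at least `N` (in particular all
curves ordered by height).  For all `x ≤ N^{1/2}` the logarithm of the product
`∏_{p ≤ x} #E(𝔽_p)/p` behaves like a Brownian motion in the time `log log x` with drift `1/2`.
-/

set_option autoImplicit false

open Polynomial MeasureTheory ProbabilityTheory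

namespace Pool.Agent.Results.MP_3283e1_nt.BoxLaw

/-- `#E(𝔽_p)` for `E : y² = h(x)`: the number of pairs `(x, y)` in `{0, …, p - 1}²` with
`y² ≡ h(x)` modulo `p`, and one for the point at infinity. -/
def points (h : ℤ[X]) (p : ℕ) : ℕ :=
  ((Finset.range p ×ˢ Finset.range p).filter
    (fun q : ℕ × ℕ => (p : ℤ) ∣ (q.2 : ℤ) ^ 2 - h.eval (q.1 : ℤ))).card + 1

/-- The discriminant of the monic cubic `h = x³ + A x² + B x + C`. -/
def disc (h : ℤ[X]) : ℤ :=
  h.coeff 2 ^ 2 * h.coeff 1 ^ 2 - 4 * h.coeff 1 ^ 3 - 4 * h.coeff 2 ^ 3 * h.coeff 0 -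
    27 * h.coeff 0 ^ 2 + 18 * h.coeff 2 * h.coeff 1 * h.coeff 0

/-- The product of Birch and Swinnerton-Dyer for `E : y² = h(x)`: the product of `#E(𝔽_p)/p` over
the primes `p ≤ x` which do not divide `16 disc h`. -/
noncomputable def P (h : ℤ[X]) (x : ℕ) : ℝ :=
  ∏ p ∈ (Finset.range (x + 1)).filter (fun p : ℕ => p.Prime ∧ ¬ (p : ℤ) ∣ 16 * disc h),
    (points h p : ℝ) / p

/-- `log log x` -/
noncomputable def LL (x : ℕ) : ℝ := Real.log (Real.log x)

/-- The mean of `φ` over the finite family `S` (a multiset of cubics). -/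
noncomputable def ave (S : Multiset ℤ[X]) (φ : ℤ[X] → ℝ) : ℝ := (S.map φ).sum / S.card

/-- The `i`-th normalised increment of `log P` between the thresholds `y 0, …, y k`:
`(log P(y (i+1)) - log P(y i) - e H) / √H` with `H = log log y (i+1) - log log y i`. -/
noncomputable def incr (e : ℝ) (h : ℤ[X]) {k : ℕ} (y : Fin (k + 1) → ℕ) (i : Fin k) : ℝ :=
  (Real.log (P h (y i.succ)) - Real.log (P h (y i.castSucc)) -
    e * (LL (y i.succ) - LL (y i.castSucc))) / √(LL (y i.succ) - LL (y i.castSucc))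

/-- The law of the product with exponent `e`, for the finite families `S ∈ 𝓢 N`, as `N → ∞`,
uniformly in `S` and in all thresholds up to `N^{1/2}`:

* the normalised increments are asymptotically independent standard Gaussian variables, when the
  increments of `log log` are large;
* `P(x) = (log x)^{e + o(1)}` for almost all members, `x → ∞`, `x ≤ N^{1/2}`;
* for almost no member `P(z)` stays within a factor `e^{± K}` of `c (log z)^ρ`, for some `c > 0`
  and some real `ρ`, for all `y ≤ z ≤ y'`, once `log log y' - log log y` is large, `y' ≤ N^{1/2}`. -/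
def Law (e : ℝ) (𝓢 : ℕ → Set (Multiset ℤ[X])) : Prop :=
  (∀ (k : ℕ) (F : (Fin k → ℝ) → ℝ), Continuous F → (∃ B, ∀ v, |F v| ≤ B) → ∀ η : ℝ, 0 < η →
    ∃ A : ℕ, ∀ N : ℕ, A ≤ N → ∀ S ∈ 𝓢 N, ∀ y : Fin (k + 1) → ℕ, 3 ≤ y 0 →
      (∀ i : Fin k, (A : ℝ) ≤ LL (y i.succ) - LL (y i.castSucc)) → y (Fin.last k) ^ 2 ≤ N →
        |ave S (fun h => F (incr e h y)) - ∫ v, F v ∂(Measure.pi fun _ : Fin k => gaussianReal 0 1)|
          ≤ η) ∧
  (∀ ε : ℝ, 0 < ε → ∀ η : ℝ, 0 < η →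
    ∃ A : ℕ, ∀ N : ℕ, A ≤ N → ∀ S ∈ 𝓢 N, ∀ x : ℕ, A ≤ x → x ^ 2 ≤ N →
      ave S ({h | ¬ ((Real.log x) ^ (e - ε) ≤ P h x ∧ P h x ≤ (Real.log x) ^ (e + ε))}.indicator 1)
        ≤ η) ∧
  (∀ K : ℝ, ∀ η : ℝ, 0 < η →
    ∃ A : ℕ, ∀ N : ℕ, A ≤ N → ∀ S ∈ 𝓢 N, ∀ y y' : ℕ, 3 ≤ y →
      (A : ℝ) ≤ LL y' - LL y → y' ^ 2 ≤ N →
        ave S ({h | ∃ ρ α : ℝ, ∀ z : ℕ, y ≤ z → z ≤ y' →
          |Real.log (P h z) - ρ * LL z - α| ≤ K}.indicator 1) ≤ η)

/-- The families of all `y² = x³ + a x + b` with `(a, b)` in a box `[a₀, a₀ + A) × [b₀, b₀ + B)`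
with sides `A, B ≥ N`. -/
def boxes (N : ℕ) : Set (Multiset ℤ[X]) :=
  {S | ∃ A B : ℕ, N ≤ A ∧ N ≤ B ∧ ∃ a₀ b₀ : ℤ,
    S = (Finset.range A ×ˢ Finset.range B).val.map
      fun i : ℕ × ℕ => X ^ 3 + C (a₀ + (i.1 : ℤ)) * X + C (b₀ + (i.2 : ℤ))}

/-- **The law of the Birch–Swinnerton-Dyer product over all elliptic curves in a box.** -/
theorem result : Law (1 / 2) boxes :=
  Pool.Agent.D0H53.EB.lawF Pool.Agent.D0H53.EB.lawA_boxes

end Pool.Agent.Results.MP_3283e1_nt.BoxLaw
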