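import Pool.Agent.D0H40.PL.Wild
import Pool.Agent.TH941.Newform

/-!
# Limit points of the original products of Birch and Swinnerton-Dyer

`E : y² = x³ + a x + b` is an elliptic curve over `ℚ`, `a, b ∈ ℤ`, `N_p` is the number of points modulo `p`
(with the point at infinity) and `P(x) = ∏_{p ≤ x, p ∤ 2Δ} N_p / p`.  `F` is the entire continuation of the
incomplete `L`-series and `m = ord_{s=1} F`.  The original conjecture says `P(x) ~ A (log x)^rank`; by
Goldfeld (1982) it implies the Riemann hypothesis for `F`, `m = rank` and `A = T`, where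
`T = √2 e^{mγ} m! / |F^{(m)}(1)|`.  Here no asymptotic formula is assumed; the question is how the
formula can fail.

`F` is *real-dominated* if it has a real zero `s₀ > 1` and no zeros with `Re s > s₀`.

* **Wild failure.**  If the Riemann hypothesis fails for `F` and `F` is not real-dominated, then for every
  `A ≥ 0` and for every slow sequence `f` (`f(n+1)/f(n) → 1` and `|log f(n)| ≤ n^{o(1)}`, e.g. a power of the
  logarithm) there are `n_k → ∞` with `P(n_k)/f(n_k) → A`.  So, if for one slow `f` one number `A ≥ 0` is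
  not a limit point of `P/f`, then the Riemann hypothesis holds for `F`.
* If `F` has a zero with `Re s > 1 + θ`, then `P(x) > exp(x^θ)` for arbitrarily large `x`; if there are no real
  zeros `s > 1 + θ`, then also `P(x) < exp(-x^θ)` for arbitrarily large `x`.
* **One-sided bounds.**  `P(x) ≤ (log x)^(ρ + o(1))` implies the Riemann hypothesis and `m ≤ ρ`;
  `P(x) ≥ (log x)^(ρ - o(1))` implies the Riemann hypothesis and `ρ ≤ m` if `F` is not real-dominated.
* **The limits `0` and `∞` in Goldfeld's theorem.**  `P(x)/(log x)^ρ → 0` implies the Riemann hypothesis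
  and `m < ρ`; `P(x)/(log x)^ρ → ∞` implies the Riemann hypothesis and `ρ < m` if `F` is not real-dominated.
* **Mild failure.**  `P(x) > A (log x)^m` for arbitrarily large `x`, for every `A < T`.  If `F` is not
  real-dominated, then `T` is a limit point of `P(n)/(log n)^m` (so the rank form implies the original formula
  along a sequence, with Goldfeld's constant), and either `P(n) ~ T (log n)^m`, or
  all the numbers between `T` and some `B ≠ T` are limit points.

Proof.  Landau's theorem on Laplace integrals of positive functions, to the right of the largest real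
zero (`Pool.Agent.W263.BSD`); the theorem of Rankin and Selberg (`Pool.Agent.TH941`) gives
the factor `√2`.  By Hasse's bound `P(n+1)/P(n) → 1`, and an intermediate value argument
gives the limit points.
-/

set_option autoImplicit false

namespace Pool.Agent.Results.MP_3283e1_nt.LimitPoints

open Filter Topology Classical CongruenceSubgroup UpperHalfPlane
open scoped MatrixGroups

/-- `N_p`: the number of points of `y² = x³ + a x + b` modulo `p`, with the point at infinity. -/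
noncomputable def numPoints (a b : ℤ) (p : ℕ) : ℕ :=
  Nat.card {q : ZMod p × ZMod p // q.2 ^ 2 = q.1 ^ 3 + (a : ZMod p) * q.1 + (b : ZMod p)} + 1

/-- `p` is a prime that does not divide `2 Δ`, where `Δ = -4 a³ - 27 b²`. -/
def Good (a b : ℤ) (p : ℕ) : Prop :=
  p.Prime ∧ ¬ ((p : ℤ) ∣ 2 * (-4 * a ^ 3 - 27 * b ^ 2))

/-- The original Birch and Swinnerton-Dyer product `P(x) = ∏_{p ≤ x, p ∤ 2Δ} N_p / p`. -/
noncomputable def P (a b : ℤ) (x : ℝ) : ℝ :=
  ∏ p ∈ (Finset.range (⌊x⌋₊ + 1)).filter (Good a b), ((numPoints a b p : ℝ) / p)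

/-- `F` is an entire function which for `Re s > 3/2` is the incomplete `L`-series
`∏_{p ∤ 2Δ} (1 - a_p p^{-s} + p^{1-2s})⁻¹`, `a_p = p + 1 - N_p`, of `y² = x³ + a x + b`. -/
def IsLSeries (a b : ℤ) (F : ℂ → ℂ) : Prop :=
  Differentiable ℂ F ∧ ∀ s : ℂ, (3 : ℝ) / 2 < s.re →
    HasProd (fun p : ℕ => if Good a b p then
      (1 - ((p : ℂ) + 1 - (numPoints a b p : ℂ)) * (p : ℂ) ^ (-s) + (p : ℂ) ^ (1 - 2 * s))⁻¹ else 1)
      (F s)

/-- The `n`-th Fourier coefficient of `f`. -/
noncomputable def coef {N : ℕ} (f : CuspForm (Gamma0 N : Subgroup (GL (Fin 2) ℝ)) 2) (n : ℕ) : ℂ :=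
  (qExpansion 1 f).coeff n

/-- `f ∈ S_2(Γ₀(N))` is the newform of the elliptic curve `E : y² = x³ + a x + b` of conductor `N`: the
Fourier coefficients `c(n)` of `f` are real with `c(1) = 1`, they satisfy the Hecke relations
`c(mn) = c(m) c(n)` for coprime `m`, `n` and `c(p^(j+2)) = c(p) c(p^(j+1)) - p c(p^j)` (without the last
term if `p ∣ N`), `c(p) = a_p = p + 1 - N_p` for all primes `p ∤ 2Δ`, `|c(p)| ≤ 2 √p` for all
`p ∤ N` (Hasse) and `c(p) = 0, 1, -1` for `p ∣ N`. -/
structure IsNewformOf (a b : ℤ) (N : ℕ) (f : CuspForm (Gamma0 N : Subgroup (GL (Fin 2) ℝ)) 2) :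
    Prop where
  one : coef f 1 = 1
  real : ∀ n, (coef f n).im = 0
  mul : ∀ m n : ℕ, Nat.Coprime m n → coef f (m * n) = coef f m * coef f n
  pow : ∀ p j : ℕ, p.Prime → coef f (p ^ (j + 2)) = coef f p * coef f (p ^ (j + 1)) -
      (if p ∣ N then 0 else (p : ℂ) * coef f (p ^ j))
  points : ∀ p : ℕ, Good a b p → coef f p = (p : ℂ) + 1 - (numPoints a b p : ℂ)
  good : ∀ p : ℕ, p.Prime → ¬ p ∣ N → ‖coef f p‖ ≤ 2 * Real.sqrt p
  bad : ∀ p : ℕ, p.Prime → p ∣ N → coef f p = 0 ∨ coef f p = 1 ∨ coef f p = -1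

/-- Goldfeld's constant `T = √2 e^{mγ} m! / |F^{(m)}(1)|` -/
noncomputable def T (F : ℂ → ℂ) (m : ℕ) : ℝ :=
  √2 * Real.exp (m * Real.eulerMascheroniConstant) * (m.factorial : ℝ) / ‖iteratedDeriv m F 1‖

/-- The Riemann hypothesis for `F`: `F` has no zeros with `Re s > 1`. -/
def RH (F : ℂ → ℂ) : Prop := ∀ s : ℂ, 1 < s.re → F s ≠ 0

/-- `F` is real-dominated: it has a real zero `s₀ > 1` and no zeros with `Re s > s₀`. -/
def RealDominated (F : ℂ → ℂ) : Prop :=
  ∃ s0 : ℝ, 1 < s0 ∧ F s0 = 0 ∧ ∀ s : ℂ, s0 < s.re → F s ≠ 0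

/-- `f` is slow: `f(n) > 0` for large `n`, `f(n+1)/f(n) → 1`, and for every `ε > 0` we have
`|log f(n)| ≤ n^ε` for large `n`. -/
structure IsSlow (f : ℕ → ℝ) : Prop where
  pos : ∀ᶠ n in atTop, 0 < f n
  ratio : Tendsto (fun n => f (n + 1) / f n) atTop (𝓝 1)
  sub : ∀ ε : ℝ, 0 < ε → ∀ᶠ n : ℕ in atTop, |Real.log (f n)| ≤ (n : ℝ) ^ ε

/-- the sequence `(log n)^ρ` -/
noncomputable def logPow (ρ : ℝ) (n : ℕ) : ℝ := Real.log (n : ℝ) ^ ρ

/-- `A` is a limit point of `P(n) / f(n)`, `n → ∞`: there are integers `n_k → ∞` with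
`P(n_k) / f(n_k) → A`. -/
def IsLimitPoint (a b : ℤ) (f : ℕ → ℝ) (A : ℝ) : Prop :=
  ∃ n : ℕ → ℕ, Tendsto n atTop atTop ∧
    Tendsto (fun k => P a b (n k : ℝ) / f (n k)) atTop (𝓝 A)

/-- the rank of the group of rational points of `y² = x³ + a x + b` -/
noncomputable def rank (a b : ℤ) : ℕ :=
  Module.finrank ℤ
    (WeierstrassCurve.Affine.Point
      (WeierstrassCurve.toAffine
        ({ a₁ := 0, a₂ := 0, a₃ := 0, a₄ := (a : ℚ), a₆ := (b : ℚ) } : WeierstrassCurve ℚ)))

/-! ### Translation to the definitions of the imported files -/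

variable {a b : ℤ}

theorem P_eq : P a b = Pool.Agent.W263.BSD.bsdProduct a b := by
  funext x
  unfold P Pool.Agent.W263.BSD.bsdProduct numPoints Pool.Agent.W263.BSD.pointCount
  refine Finset.prod_congr rfl fun p _ => ?_
  push_cast
  rfl

theorem numPoints_sub (p : ℕ) : (p : ℂ) + 1 - (numPoints a b p : ℂ) =
    (p : ℂ) - (Pool.Agent.W263.BSD.pointCount a b p : ℂ) := by
  unfold numPoints Pool.Agent.W263.BSD.pointCount
  push_cast
  ring

theorem isLSeries {F : ℂ → ℂ} (hF : IsLSeries a b F) :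
    Pool.Agent.W263.BSD.IsLSeries a b F := by
  refine ⟨hF.1, fun s hs => ?_⟩
  have h := hF.2 s hs
  simp only [numPoints_sub] at h
  exact h

theorem hecke {N : ℕ} {f : CuspForm (Gamma0 N : Subgroup (GL (Fin 2) ℝ)) 2}
    (hf : IsNewformOf a b N f) : Pool.Agent.TH941.Hecke f where
  one := hf.one
  real := hf.real
  mul := hf.mul
  pow := hf.pow
  good := hf.good
  bad := fun p hp h => by
    rcases hf.bad p hp h with h1 | h1 | h1
    · have h2 : ‖coef f p‖ ≤ 1 := by rw [h1]; simp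
      exact h2
    · have h2 : ‖coef f p‖ ≤ 1 := by rw [h1]; simp
      exact h2
    · have h2 : ‖coef f p‖ ≤ 1 := by rw [h1]; simp
      exact h2

theorem T_eq (F : ℂ → ℂ) (m : ℕ) : T F m = Pool.Agent.D0H40.PL.T1 F m := by
  unfold T Pool.Agent.D0H40.PL.T1 Pool.Agent.N586.BP.TT Pool.Agent.W263.BSD.leadAbs
  rw [div_div_eq_mul_div, mul_div_assoc', ← mul_assoc]

theorem limit_iff (f : ℕ → ℝ) (A : ℝ) : IsLimitPoint a b f A ↔ Pool.Agent.D0H40.PL.LPf a b f A := by
  unfold IsLimitPoint Pool.Agent.D0H40.PL.LPf Pool.Agent.D0H40.PL.qf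
  rw [P_eq]

theorem IsSlow.slow {f : ℕ → ℝ} (h : IsSlow f) : Pool.Agent.D0H40.PL.Slow f := ⟨h.pos, h.ratio, h.sub⟩

/-- powers of the logarithm are slow -/
theorem isSlow_logPow (ρ : ℝ) : IsSlow (logPow ρ) :=
  ⟨(Pool.Agent.D0H40.PL.slow_log ρ).pos, (Pool.Agent.D0H40.PL.slow_log ρ).ratio,
    (Pool.Agent.D0H40.PL.slow_log ρ).sub⟩

/-- **Limit points of the original products of Birch and Swinnerton-Dyer.** -/
theorem result (a b : ℤ) (hΔ : 4 * a ^ 3 + 27 * b ^ 2 ≠ 0) (F : ℂ → ℂ) (hF : IsLSeries a b F) :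
    ∃ m : ℕ, analyticOrderAt F 1 = m ∧
      -- the powers of the logarithm are slow
      (∀ ρ : ℝ, IsSlow (logPow ρ)) ∧
      -- the limit points form an interval
      (∀ f : ℕ → ℝ, IsSlow f → ∀ u v w : ℝ, u ≤ v → v ≤ w → IsLimitPoint a b f u →
        IsLimitPoint a b f w → IsLimitPoint a b f v) ∧
      -- wild failure
      (¬ RealDominated F → ¬ RH F → ∀ f : ℕ → ℝ, IsSlow f → ∀ A : ℝ, 0 ≤ A →
        IsLimitPoint a b f A) ∧
      -- large and small values
      (∀ θ : ℝ, 0 ≤ θ → (∃ s : ℂ, 1 + θ < s.re ∧ F s = 0) →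
        (∃ᶠ x : ℝ in atTop, Real.exp (x ^ θ) < P a b x) ∧
        ((∀ s : ℝ, 1 + θ < s → F s ≠ 0) → ∃ᶠ x : ℝ in atTop, P a b x < Real.exp (-x ^ θ))) ∧
      -- one-sided bounds
      (∀ ρ : ℝ, (∀ ε : ℝ, 0 < ε → ∀ᶠ x : ℝ in atTop, P a b x ≤ Real.log x ^ (ρ + ε)) →
        RH F ∧ (m : ℝ) ≤ ρ) ∧
      (¬ RealDominated F → ∀ ρ : ℝ, (∀ ε : ℝ, 0 < ε → ∀ᶠ x : ℝ in atTop,
        Real.log x ^ (ρ - ε) ≤ P a b x) → RH F ∧ ρ ≤ m) ∧
      ∀ (N : ℕ) [NeZero N] (f : CuspForm (Gamma0 N : Subgroup (GL (Fin 2) ℝ)) 2),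
        IsNewformOf a b N f →
        0 < T F m ∧ (∀ A : ℝ, A < T F m → ∃ᶠ x : ℝ in atTop, A * Real.log x ^ m < P a b x) ∧
        -- the limit zero
        (∀ ρ : ℝ, Tendsto (fun x : ℝ => P a b x / Real.log x ^ ρ) atTop (𝓝 0) →
          RH F ∧ (m : ℝ) < ρ) ∧
        (¬ RealDominated F →
          -- the limit infinity
          (∀ ρ : ℝ, Tendsto (fun x : ℝ => P a b x / Real.log x ^ ρ) atTop atTop →
            RH F ∧ ρ < (m : ℝ)) ∧
          -- Goldfeld's constant is a limit point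
          IsLimitPoint a b (logPow m) (T F m) ∧
          (analyticOrderAt F 1 = rank a b → IsLimitPoint a b (logPow (rank a b)) (T F (rank a b))) ∧
          -- convergence or an interval of limit points
          (Tendsto (fun n : ℕ => P a b (n : ℝ) / logPow m n) atTop (𝓝 (T F m)) ∨
            ∃ B : ℝ, B ≠ T F m ∧ 0 ≤ B ∧ ∀ v : ℝ, v ∈ Set.uIcc (T F m) B →
              IsLimitPoint a b (logPow m) v)) := by
  have hF' := isLSeries hF
  obtain ⟨m, hm⟩ := Pool.Agent.W263.BSD.order_finite hF'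
  refine ⟨m, hm, isSlow_logPow, ?_, ?_, ?_, ?_, ?_, ?_⟩
  · intro f hf u v w huv hvw hu hw
    rw [limit_iff] at hu hw ⊢
    exact hu.between hf.pos hf.ratio huv hvw hw
  · intro hdom hRH f hf A hA
    rw [limit_iff]
    unfold RH at hRH
    push Not at hRH
    exact Pool.Agent.D0H40.PL.wild hF' hdom hRH hf.slow hA
  · intro θ hθ hz
    rw [P_eq]
    constructor
    · refine (Pool.Agent.D0H40.PL.omega_plus hF' hθ hz).mono fun x hx => ?_
      rw [← Pool.Agent.W263.BSD.log_bsdProduct] at hx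
      exact (Real.lt_log_iff_exp_lt (Pool.Agent.W263.BSD.bsdProduct_pos x)).1 hx
    · intro hne
      refine (Pool.Agent.D0H40.PL.omega_minus hF' hθ hz hne).mono fun x hx => ?_
      rw [← Pool.Agent.W263.BSD.log_bsdProduct] at hx
      exact (Real.log_lt_iff_lt_exp (Pool.Agent.W263.BSD.bsdProduct_pos x)).1 hx
  · intro ρ h
    rw [P_eq] at h
    exact Pool.Agent.D0H40.PL.one_upper hF' hm h
  · intro hdom ρ h
    rw [P_eq] at h
    have hRH : RH F := by
      intro s hs
      refine Pool.Agent.D0H40.PL.rh_of_lower (ρ := ρ - 1) hF' hdom (h 1 one_pos) hs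
    exact ⟨hRH, Pool.Agent.D0H40.PL.one_lower hF' hm (fun s hs => hRH s (by simpa using hs)) h⟩
  · intro N _ f hf
    have hrs : Tendsto (Pool.Agent.W263.BSD.rsSum a b) atTop (𝓝 0) :=
      (hecke hf).rsSum_tendsto hΔ fun p hp => (hf.points p hp).trans (numPoints_sub p)
    have hlim : ¬ RealDominated F → IsLimitPoint a b (logPow m) (T F m) := by
      intro hdom
      rw [limit_iff, T_eq]
      exact Pool.Agent.D0H40.PL.limit_point_dom hΔ hrs hF' hdom hm
    refine ⟨?_, ?_, ?_, fun hdom => ⟨?_, hlim hdom, ?_, ?_⟩⟩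
    · rw [T_eq]
      exact Pool.Agent.D0H40.PL.T1_pos hF' hm
    · intro A hA
      rw [T_eq] at hA
      rw [P_eq]
      refine ((Pool.Agent.D0H40.PL.br_up hΔ hrs hF' hm hA).and_eventually
        (eventually_gt_atTop 1)).mono ?_
      rintro x ⟨h1, h2⟩
      unfold Pool.Agent.D0H40.PL.gq at h1
      rwa [lt_div_iff₀ (pow_pos (Real.log_pos h2) _)] at h1
    · intro ρ h
      rw [P_eq] at h
      exact Pool.Agent.D0H40.PL.lim_zero hΔ hrs hF' hm h
    · intro ρ h
      rw [P_eq] at h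
      exact Pool.Agent.D0H40.PL.lim_top hΔ hrs hF' hdom hm h
    · intro h
      have e : m = rank a b := by
        rw [hm] at h
        exact_mod_cast h
      rw [← e]
      exact hlim hdom
    · by_cases hT : Tendsto (fun n : ℕ => P a b (n : ℝ) / logPow m n) atTop (𝓝 (T F m))
      · exact Or.inl hT
      · right
        have hs := isSlow_logPow (m : ℝ)
        have h1 := (limit_iff (a := a) (b := b) (logPow m) (T F m)).1 (hlim hdom)
        obtain ⟨B, hB1, hB2, hB3⟩ := Pool.Agent.D0H40.PL.interval hs.pos hs.ratio h1 (by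
          unfold Pool.Agent.D0H40.PL.qf
          rw [P_eq] at hT
          exact hT)
        exact ⟨B, hB1, hB2, fun v hv => (limit_iff _ _).2 (hB3 v hv)⟩

end Pool.Agent.Results.MP_3283e1_nt.LimitPoints
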