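import Mathlib
import Pool.Agent.D0H93.RP.Sharp
import Pool.Agent.TH941.Newform

/-!
# The product `∏_{p ≤ x} N_p / p` and the number of rational points of height at most `x`

Let `E : y² = x³ + a x + b` be an elliptic curve over `ℚ`, `a, b ∈ ℤ`, of rank `r`, and let
`P(x) = ∏_{p ≤ x, p ∤ 2Δ} N_p / p`. Let `R(x)` be the number of the points of `E(ℚ)` (with the point at
infinity) such that the numerator and the denominator of the first coordinate are at most `x` in absolute
value. Let `F` be the entire continuation of the incomplete `L`-series, `m = ord_{s=1} F` and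
`T = √2 e^{mγ} m! / |F^{(m)}(1)|` Goldfeld's constant. We compare `P(x)` with `R(x)²`: a bound for the
primes on one side, and for numerators and denominators of rational points on the other.

1. The original conjecture `P(x) ~ A (log x)^r` holds for `E` for some `A > 0` if and only if
   `P(x) / R(x)²` converges to a positive number, if and only if `m = r` and
   `P(x) / R(x)² → T Reg / (#E(ℚ)_tors² V_r²)` (`V_r` the volume of the unit ball of dimension `r`).
2. For every `M > 0` the original conjecture for `E` together with the formula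
   `|F^{(r)}(1)| / r! = M Reg / #E(ℚ)_tors²` is equivalent to

     `P(x) / R(x)² → √2 e^{rγ} / (V_r² M)`.

   For `M = Ω #Ш ∏ c_p ∏_{p | 2Δ} (#E_ns(F_p) / p)` this is the conjunction of the original conjecture (with
   the Riemann hypothesis for `F`, which it implies by Goldfeld) and the formula for the leading
   coefficient; regulator and torsion do not occur in it.
3. If `P(x) ≤ C R(x)²` for some `C` and all large `x`, then the Riemann hypothesis holds for `F`, and
   `m ≤ r`. If `F` has no real zeros `s > 1` and `R(x)² ≤ C P(x)` for all large `x`, then `r ≤ m`.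
4. If `m = r`, then `P(x) / R(x)² > T Reg / (#E(ℚ)_tors² V_r²) - ε` for arbitrarily large `x`, for every
   `ε > 0`; if `m > r`, then `P(x) / R(x)²` is not bounded above.

Proof. The theorem of Mordell, Weil and Néron (library `Pool.Agent.TH942`); Goldfeld's theorem in the
form of the starting result `OneSidedSlowVariation` (library `Pool.Agent.N586.BP`, `W263.BSD`,
`TH941`); the one-sided bounds of helper40 (`Pool.Agent.D0H40.PL`).
-/

set_option autoImplicit false

namespace Pool.Agent.Results.MP_3283e1_nt.ProductsAgainstPoints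

open Filter Topology Classical CongruenceSubgroup
open scoped MatrixGroups

/-! ### Rational points -/

/-- the curve `y² = x³ + a x + b` over `ℚ` -/
def E (a b : ℤ) : WeierstrassCurve ℚ := { a₁ := 0, a₂ := 0, a₃ := 0, a₄ := (a : ℚ), a₆ := (b : ℚ) }

/-- `E(ℚ)` -/
abbrev Pt (a b : ℤ) : Type := (E a b).toAffine.Point

/-- `h(x(P))`: the logarithm of the maximum of `|numerator|` and `denominator` of the first coordinate,
and `0` for the point at infinity -/
noncomputable def height {a b : ℤ} : Pt a b → ℝ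
  | .zero => 0
  | .some x _ _ => Real.log (max x.num.natAbs x.den : ℕ)

/-- `R(x)`: the number of the points of `E(ℚ)` with `h(x(P)) ≤ log x` -/
noncomputable def R (a b : ℤ) (x : ℝ) : ℕ := Nat.card {P : Pt a b // height P ≤ Real.log x}

/-- the Néron-Tate height, `⟨P, P⟩ = lim 4 ^ (-k) h(x(2 ^ k P))` -/
noncomputable def hhat {a b : ℤ} (P : Pt a b) : ℝ :=
  limUnder atTop fun k : ℕ => height ((2 ^ k : ℕ) • P) / 4 ^ k

/-- the Néron-Tate pairing -/
noncomputable def pairing {a b : ℤ} (P Q : Pt a b) : ℝ := (hhat (P + Q) - hhat P - hhat Q) / 2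

/-- the regulator of points `g_1, …, g_r` -/
noncomputable def Reg {a b : ℤ} {r : ℕ} (g : Fin r → Pt a b) : ℝ :=
  (Matrix.of fun i j => pairing (g i) (g j)).det

/-- `g` is a basis of `E(ℚ)` modulo torsion -/
def IsBasis {a b : ℤ} {r : ℕ} (g : Fin r → Pt a b) : Prop :=
  ∀ P : Pt a b, ∃! n : Fin r → ℤ, IsOfFinAddOrder (P - ∑ i, n i • g i)

/-- `#E(ℚ)_tors` -/
noncomputable def tors (a b : ℤ) : ℕ := Nat.card {t : Pt a b // IsOfFinAddOrder t}

/-- `V_r = π^{r/2} / Γ(r/2 + 1)`, the volume of the unit ball of dimension `r` -/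
noncomputable def V (r : ℕ) : ℝ := √Real.pi ^ r / Real.Gamma (r / 2 + 1)

/-! ### Points modulo `p` -/

/-- `N_p`: the number of points of `y² = x³ + a x + b` modulo `p`, with the point at infinity. -/
noncomputable def numPoints (a b : ℤ) (p : ℕ) : ℕ :=
  Nat.card {q : ZMod p × ZMod p // q.2 ^ 2 = q.1 ^ 3 + (a : ZMod p) * q.1 + (b : ZMod p)} + 1

/-- `p` is a prime that does not divide `2 Δ`, where `Δ = -4 a³ - 27 b²`. -/
def Good (a b : ℤ) (p : ℕ) : Prop :=
  p.Prime ∧ ¬ ((p : ℤ) ∣ 2 * (-4 * a ^ 3 - 27 * b ^ 2))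

/-- The original Birch and Swinnerton-Dyer product `P(x) = ∏_{p ≤ x, p ∤ 2Δ} N_p / p`. -/
noncomputable def P (a b : ℤ) (x : ℝ) : ℝ :=
  ∏ p ∈ (Finset.range (⌊x⌋₊ + 1)).filter (Good a b), ((numPoints a b p : ℝ) / p)

/-- `F` is an entire function which for `Re s > 3/2` is the incomplete `L`-series
`∏_{p ∤ 2Δ} (1 - a_p p^{-s} + p^{1-2s})⁻¹`, `a_p = p + 1 - N_p`, of `y² = x³ + a x + b`. -/
def IsLSeries (a b : ℤ) (F : ℂ → ℂ) : Prop :=
  Differentiable ℂ F ∧ ∀ s : ℂ, (3 : ℝ) / 2 < s.re →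
    HasProd (fun p : ℕ => if Good a b p then
      (1 - ((p : ℂ) + 1 - (numPoints a b p : ℂ)) * (p : ℂ) ^ (-s) + (p : ℂ) ^ (1 - 2 * s))⁻¹ else 1)
      (F s)

/-- The `n`-th Fourier coefficient of `f`. -/
noncomputable def coef {N : ℕ} (f : CuspForm (Gamma0 N : Subgroup (GL (Fin 2) ℝ)) 2) (n : ℕ) : ℂ :=
  (UpperHalfPlane.qExpansion 1 f).coeff n

/-- `f ∈ S_2(Γ₀(N))` is the newform of the elliptic curve `E : y² = x³ + a x + b` of conductor `N`: the
Fourier coefficients `c(n)` of `f` are real with `c(1) = 1`, they satisfy the Hecke relations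
`c(mn) = c(m) c(n)` for coprime `m`, `n` and `c(p^(j+2)) = c(p) c(p^(j+1)) - p c(p^j)` (without the last
term if `p ∣ N`), `c(p) = a_p = p + 1 - N_p` for all primes `p ∤ 2Δ`, `|c(p)| ≤ 2 √p` for all
`p ∤ N` (Hasse) and `c(p) = 0, 1, -1` for `p ∣ N`. -/
structure IsNewformOf (a b : ℤ) (N : ℕ) (f : CuspForm (Gamma0 N : Subgroup (GL (Fin 2) ℝ)) 2) :
    Prop where
  one : coef f 1 = 1
  real : ∀ n, (coef f n).im = 0
  mul : ∀ m n : ℕ, Nat.Coprime m n → coef f (m * n) = coef f m * coef f n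
  pow : ∀ p j : ℕ, p.Prime → coef f (p ^ (j + 2)) = coef f p * coef f (p ^ (j + 1)) -
      (if p ∣ N then 0 else (p : ℂ) * coef f (p ^ j))
  points : ∀ p : ℕ, Good a b p → coef f p = (p : ℂ) + 1 - (numPoints a b p : ℂ)
  good : ∀ p : ℕ, p.Prime → ¬ p ∣ N → ‖coef f p‖ ≤ 2 * Real.sqrt p
  bad : ∀ p : ℕ, p.Prime → p ∣ N → coef f p = 0 ∨ coef f p = 1 ∨ coef f p = -1

/-- Goldfeld's constant `T = √2 e^{mγ} m! / |F^{(m)}(1)|` -/
noncomputable def T (F : ℂ → ℂ) (m : ℕ) : ℝ :=
  √2 * Real.exp (m * Real.eulerMascheroniConstant) * (m.factorial : ℝ) / ‖iteratedDeriv m F 1‖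

/-- The original conjecture of Birch and Swinnerton-Dyer for the curve: `P(x) ~ A (log x)^r` for some
`A > 0`, `r` the number of the elements of the basis `g` of `E(ℚ)` modulo torsion. -/
def Original (a b : ℤ) (r : ℕ) : Prop :=
  ∃ A : ℝ, 0 < A ∧ Tendsto (fun x : ℝ => P a b x / Real.log x ^ r) atTop (𝓝 A)

/-! ### Translation to the definitions of the library -/

variable {a b : ℤ}

theorem numPoints_sub (p : ℕ) : (p : ℂ) + 1 - (numPoints a b p : ℂ) =
    (p : ℂ) - (Pool.Agent.W263.BSD.pointCount a b p : ℂ) := by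
  unfold numPoints Pool.Agent.W263.BSD.pointCount
  push_cast
  ring

theorem isLSeries {F : ℂ → ℂ} (hF : IsLSeries a b F) :
    Pool.Agent.W263.BSD.IsLSeries a b F := by
  refine ⟨hF.1, fun s hs => ?_⟩
  have h := hF.2 s hs
  simp only [numPoints_sub] at h
  exact h

theorem hecke {N : ℕ} {f : CuspForm (Gamma0 N : Subgroup (GL (Fin 2) ℝ)) 2}
    (hf : IsNewformOf a b N f) : Pool.Agent.TH941.Hecke f where
  one := hf.one
  real := hf.real
  mul := hf.mul
  pow := hf.pow
  good := hf.good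
  bad := fun p hp h => by
    rcases hf.bad p hp h with h1 | h1 | h1
    · have h2 : ‖coef f p‖ ≤ 1 := by rw [h1]; simp
      exact h2
    · have h2 : ‖coef f p‖ ≤ 1 := by rw [h1]; simp
      exact h2
    · have h2 : ‖coef f p‖ ≤ 1 := by rw [h1]; simp
      exact h2

theorem hasse {N : ℕ} [NeZero N] {f : CuspForm (Gamma0 N : Subgroup (GL (Fin 2) ℝ)) 2}
    (hΔ : 4 * a ^ 3 + 27 * b ^ 2 ≠ 0) (hf : IsNewformOf a b N f) : Pool.Agent.N586.BP.Hasse a b := by
  obtain ⟨D, hD⟩ := Pool.Agent.W263.BSD.good_of_large hΔ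
  refine ⟨max D N, fun p hp h => ?_⟩
  have h1 : Good a b p := hD p hp (lt_of_le_of_lt (le_max_left _ _) h)
  have h2 : ¬ p ∣ N := fun h3 => by
    have := Nat.le_of_dvd (Nat.pos_of_ne_zero (NeZero.ne N)) h3
    have := le_max_right D N
    omega
  have h3 := hf.good p hp h2
  rw [hf.points p h1, numPoints_sub] at h3
  have h4 : ((p : ℂ) - (Pool.Agent.W263.BSD.pointCount a b p : ℂ)) =
      (((p : ℝ) - (Pool.Agent.W263.BSD.pointCount a b p : ℝ) : ℝ) : ℂ) := by push_cast; rfl
  rw [h4, Complex.norm_real, Real.norm_eq_abs] at h3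
  exact h3

theorem P_eq : P a b = Pool.Agent.W263.BSD.bsdProduct a b := by
  funext x
  unfold P Pool.Agent.W263.BSD.bsdProduct numPoints Pool.Agent.W263.BSD.pointCount
  refine Finset.prod_congr rfl fun p _ => ?_
  push_cast
  rfl

theorem T_eq (F : ℂ → ℂ) (r : ℕ) : T F r = Pool.Agent.N586.BP.TT F r := by
  unfold T Pool.Agent.N586.BP.TT Pool.Agent.W263.BSD.leadAbs
  rw [div_div_eq_mul_div, mul_div_assoc', ← mul_assoc]

theorem height_eq (P : Pt a b) :
    height P = Pool.Agent.TH942.sht (P : Pool.Agent.TH942.SPt (a : ℚ) (b : ℚ)) := by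
  cases P with
  | zero => exact Pool.Agent.TH942.sht_zero.symm
  | some x y h => exact (Pool.Agent.TH942.sht_some h).symm

theorem hhat_eq : (hhat : Pt a b → ℝ) =
    (Pool.Agent.D0H93.RP.hhat : Pool.Agent.TH942.SPt (a : ℚ) (b : ℚ) → ℝ) := by
  funext P
  unfold hhat Pool.Agent.D0H93.RP.hhat
  simp only [height_eq]
  rfl

theorem reg_eq {r : ℕ} (g : Fin r → Pt a b) :
    Reg g = Pool.Agent.D0H93.RP.reg (g : Fin r → Pool.Agent.TH942.SPt (a : ℚ) (b : ℚ)) := by
  unfold Reg Pool.Agent.D0H93.RP.reg Pool.Agent.TH942.gram pairing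
  rw [hhat_eq]
  rfl

theorem R_eq (hab : 4 * a ^ 3 + 27 * b ^ 2 ≠ 0) {X : ℝ} (hX : 1 ≤ X) :
    (R a b X : ℝ) = Pool.Agent.D0H93.RP.rc a b X := by
  have hD : 4 * (a : ℚ) ^ 3 + 27 * (b : ℚ) ^ 2 ≠ 0 := by exact_mod_cast hab
  rw [Pool.Agent.D0H93.RP.rc_eq, Pool.Agent.TH942.ratCount_eq hD hX]
  unfold R
  simp only [height_eq]
  rfl

/-- **Points modulo `p ≤ x` and rational points of height at most `x`.** -/
theorem result (a b : ℤ) (hΔ : 4 * a ^ 3 + 27 * b ^ 2 ≠ 0) (F : ℂ → ℂ) (hF : IsLSeries a b F)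
    (N : ℕ) [NeZero N] (f : CuspForm (Gamma0 N : Subgroup (GL (Fin 2) ℝ)) 2)
    (hf : IsNewformOf a b N f) :
    (∃ (r : ℕ) (g : Fin r → Pt a b), IsBasis g) ∧
    ∃ m : ℕ, analyticOrderAt F 1 = m ∧ iteratedDeriv m F 1 ≠ 0 ∧
      ∀ (r : ℕ) (g : Fin r → Pt a b), IsBasis g → 0 < Reg g ∧
        -- the original conjecture
        List.TFAE [Original a b r,
          ∃ B : ℝ, 0 < B ∧ Tendsto (fun x : ℝ => P a b x / (R a b x : ℝ) ^ 2) atTop (𝓝 B),
          m = r ∧ Tendsto (fun x : ℝ => P a b x / (R a b x : ℝ) ^ 2) atTop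
            (𝓝 (T F m * Reg g / ((tors a b : ℝ) ^ 2 * V r ^ 2)))] ∧
        -- with the leading coefficient
        (∀ M : ℝ, 0 < M →
          ((Original a b r ∧
              ‖iteratedDeriv r F 1‖ / r.factorial = M * Reg g / (tors a b : ℝ) ^ 2) ↔
            Tendsto (fun x : ℝ => P a b x / (R a b x : ℝ) ^ 2) atTop
              (𝓝 (√2 * Real.exp (r * Real.eulerMascheroniConstant) / (V r ^ 2 * M))))) ∧
        -- one-sided bounds
        (∀ C : ℝ, (∀ᶠ x : ℝ in atTop, P a b x ≤ C * (R a b x : ℝ) ^ 2) →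
          (∀ s : ℂ, 1 < s.re → F s ≠ 0) ∧ m ≤ r) ∧
        ((∀ s : ℝ, 1 < s → F s ≠ 0) → ∀ C : ℝ, 0 < C →
          (∀ᶠ x : ℝ in atTop, (R a b x : ℝ) ^ 2 ≤ C * P a b x) → r ≤ m) ∧
        -- large values
        (m = r → ∀ B : ℝ, B < T F m * Reg g / ((tors a b : ℝ) ^ 2 * V r ^ 2) →
          ∃ᶠ x : ℝ in atTop, B < P a b x / (R a b x : ℝ) ^ 2) ∧
        (r < m → ∀ B : ℝ, ∃ᶠ x : ℝ in atTop, B < P a b x / (R a b x : ℝ) ^ 2) := by
  have hD : 4 * (a : ℚ) ^ 3 + 27 * (b : ℚ) ^ 2 ≠ 0 := by exact_mod_cast hΔ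
  have hF' := isLSeries hF
  obtain ⟨m, hm⟩ := Pool.Agent.W263.BSD.order_finite hF'
  have hH := hasse hΔ hf
  have hrs : Tendsto (Pool.Agent.W263.BSD.rsSum a b) atTop (𝓝 0) :=
    (hecke hf).rsSum_tendsto hΔ fun p hp => (hf.points p hp).trans (numPoints_sub p)
  have hlead : 0 < Pool.Agent.W263.BSD.leadAbs F m :=
    (Pool.Agent.W263.BSD.lead_limit hF'.1 hm).1
  have hne : iteratedDeriv m F 1 ≠ 0 := by
    intro h
    unfold Pool.Agent.W263.BSD.leadAbs at hlead
    rw [h] at hlead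
    simp at hlead
  have hT : 0 < T F m := by
    rw [T_eq]
    unfold Pool.Agent.N586.BP.TT
    positivity
  refine ⟨Pool.Agent.TH942.exists_basis (Pool.Agent.TH942.sfg hD), m, hm, hne, ?_⟩
  intro r g hg
  obtain ⟨h1, -, h2⟩ := Pool.Agent.D0H93.RP.neron_rat hΔ hg
  have hreg : 0 < Reg g := by
    rw [reg_eq]
    exact h1
  have htors : 0 < (tors a b : ℝ) := by
    have h3 : 0 < tors a b := Pool.Agent.D0H93.RP.tors_pos hΔ
    exact_mod_cast h3
  have hV : 0 < V r := Pool.Agent.TH942.ballVol_pos r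
  rw [← reg_eq] at h2
  set κ : ℝ := (tors a b : ℝ) ^ 2 * V r ^ 2 / Reg g with hκ
  have hκ0 : 0 < κ := by positivity
  have hR : Tendsto (fun x : ℝ => (R a b x : ℝ) ^ 2 / Real.log x ^ r) atTop (𝓝 κ) := by
    refine Tendsto.congr' ?_ h2
    filter_upwards [eventually_ge_atTop 1] with x hx
    rw [R_eq hΔ hx]
  have hlim : ∀ A : ℝ, Tendsto (fun x : ℝ => P a b x / Real.log x ^ r) atTop (𝓝 A) ↔
      Tendsto (fun x : ℝ => P a b x / (R a b x : ℝ) ^ 2) atTop (𝓝 (A / κ)) := by
    intro A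
    rw [← Pool.Agent.D0H93.RP.tendsto_quot_iff hκ0 hR]
    simp only [Real.rpow_natCast]
  have hasy := Pool.Agent.N586.BP.main_asy hΔ hrs hH hF' hm (r : ℝ)
  have h12 : Original a b r ↔ (r : ℝ) = m ∧ Tendsto (fun x : ℝ => P a b x / Real.log x ^ r) atTop
      (𝓝 (T F m)) := by
    have h3 := hasy.out 0 1
    unfold Pool.Agent.N586.BP.Asy at h3
    simp only [Real.rpow_natCast, ← P_eq, ← T_eq] at h3
    exact h3
  have hval : T F m / κ = T F m * Reg g / ((tors a b : ℝ) ^ 2 * V r ^ 2) := by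
    rw [hκ]
    field_simp
  have hR1 : ∀ᶠ x : ℝ in atTop, 0 < (R a b x : ℝ) := by
    filter_upwards [eventually_ge_atTop 1] with x hx
    rw [R_eq hΔ hx]
    have := Pool.Agent.D0H93.RP.one_le_rc a b x
    linarith
  refine ⟨hreg, ?_, ?_, ?_, ?_, ?_, ?_⟩
  · tfae_have 1 → 3 := by
      intro h
      obtain ⟨h3, h4⟩ := h12.1 h
      refine ⟨by exact_mod_cast h3.symm, ?_⟩
      rw [← hval]
      exact (hlim _).1 h4
    tfae_have 3 → 2 := by
      rintro ⟨-, h⟩
      exact ⟨_, by positivity, h⟩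
    tfae_have 2 → 1 := by
      rintro ⟨B, hB, h⟩
      refine ⟨B * κ, by positivity, (hlim _).2 ?_⟩
      rwa [mul_div_cancel_right₀ _ hκ0.ne']
    tfae_finish
  · intro M hM
    constructor
    · rintro ⟨h3, h4⟩
      obtain ⟨h5, h6⟩ := h12.1 h3
      have h7 : r = m := by exact_mod_cast h5
      subst h7
      have h8 := (hlim _).1 h6
      have h9 : T F r / κ = √2 * Real.exp (r * Real.eulerMascheroniConstant) / (V r ^ 2 * M) := by
        have hn : (0 : ℝ) < ‖iteratedDeriv r F 1‖ := norm_pos_iff.2 hne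
        have hf0 : (0 : ℝ) < (r.factorial : ℝ) := by exact_mod_cast r.factorial_pos
        have h10 : ‖iteratedDeriv r F 1‖ = r.factorial * (M * Reg g / (tors a b : ℝ) ^ 2) := by
          rw [← h4]
          field_simp
        unfold T
        rw [h10, hκ]
        field_simp
      rwa [h9] at h8
    · intro h3
      have hpos : 0 < √2 * Real.exp (r * Real.eulerMascheroniConstant) / (V r ^ 2 * M) := by
        positivity
      have h4 : Original a b r := by
        refine ⟨√2 * Real.exp (r * Real.eulerMascheroniConstant) / (V r ^ 2 * M) * κ, by positivity,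
          (hlim _).2 ?_⟩
        rwa [mul_div_cancel_right₀ _ hκ0.ne']
      refine ⟨h4, ?_⟩
      obtain ⟨h5, h6⟩ := h12.1 h4
      have h7 : r = m := by exact_mod_cast h5
      subst h7
      have h8 := tendsto_nhds_unique ((hlim _).1 h6) h3
      have hn : (0 : ℝ) < ‖iteratedDeriv r F 1‖ := norm_pos_iff.2 hne
      have hf0 : (0 : ℝ) < (r.factorial : ℝ) := by exact_mod_cast r.factorial_pos
      have hs : (0 : ℝ) < √2 := by positivity
      have he := Real.exp_pos (r * Real.eulerMascheroniConstant)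
      unfold T at h8
      rw [hκ] at h8
      have h11 : (r.factorial : ℝ) / ‖iteratedDeriv r F 1‖ * (Reg g / (tors a b : ℝ) ^ 2) =
          1 / M := by
        have h12' : √2 * Real.exp (r * Real.eulerMascheroniConstant) / V r ^ 2 *
            ((r.factorial : ℝ) / ‖iteratedDeriv r F 1‖ * (Reg g / (tors a b : ℝ) ^ 2)) =
            √2 * Real.exp (r * Real.eulerMascheroniConstant) / V r ^ 2 * (1 / M) := by
          have e1 : √2 * Real.exp (r * Real.eulerMascheroniConstant) / V r ^ 2 *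
            ((r.factorial : ℝ) / ‖iteratedDeriv r F 1‖ * (Reg g / (tors a b : ℝ) ^ 2)) =
            √2 * Real.exp (r * Real.eulerMascheroniConstant) * (r.factorial : ℝ) /
              ‖iteratedDeriv r F 1‖ / ((tors a b : ℝ) ^ 2 * V r ^ 2 / Reg g) := by
            field_simp
          rw [e1, h8]
          field_simp
        exact mul_left_cancel₀ (by positivity) h12'
      field_simp at h11 ⊢
      linarith
  · intro C hC
    have h3 := Pool.Agent.D0H40.PL.one_upper hF' hm (ρ := (r : ℝ)) (fun ε hε => by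
      filter_upwards [hC, (Pool.Agent.D0H93.RP.rsq_bounds hκ0 hR (C := C) hε).1] with x h4 h5
      rw [← P_eq]
      exact h4.trans h5)
    exact ⟨h3.1, by exact_mod_cast h3.2⟩
  · intro hreal C hC hlow
    have h3 := Pool.Agent.D0H40.PL.one_lower hF' hm hreal (ρ := (r : ℝ)) (fun ε hε => by
      filter_upwards [hlow, (Pool.Agent.D0H93.RP.rsq_bounds hκ0 hR (C := C⁻¹) hε).2
        (inv_pos.2 hC)] with x h4 h5
      rw [← P_eq]
      refine h5.trans ?_
      rw [inv_mul_le_iff₀ hC]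
      exact h4)
    exact_mod_cast h3
  · intro hmr B hB
    subst hmr
    rw [← hval] at hB
    rw [lt_div_iff₀ hκ0] at hB
    -- choose `A` with `B κ < A < T`
    obtain ⟨A, hA1, hA2⟩ := exists_between hB
    have h3 : ∃ᶠ x : ℝ in atTop, A * Real.log x ^ m < P a b x := by
      have h4 := hA2
      rw [T_eq] at h4
      rw [P_eq]
      refine ((Pool.Agent.D0H40.PL.br_up hΔ hrs hF' hm h4).and_eventually
        (eventually_gt_atTop 1)).mono ?_
      rintro x ⟨k1, k2⟩
      unfold Pool.Agent.D0H40.PL.gq at k1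
      rwa [lt_div_iff₀ (pow_pos (Real.log_pos k2) _)] at k1
    have h5 : ∀ᶠ x : ℝ in atTop, B * ((R a b x : ℝ) ^ 2 / Real.log x ^ m) < A := by
      have := (hR.const_mul B)
      exact this.eventually (eventually_lt_nhds hA1)
    refine (h3.and_eventually (h5.and (hR1.and (eventually_ge_atTop 3)))).mono ?_
    rintro x ⟨k1, k2, k3, k4⟩
    have hl := Pool.Agent.D0H93.RP.one_lt_log k4
    have hlp : 0 < Real.log x ^ m := pow_pos (by linarith) _
    rw [lt_div_iff₀ (pow_pos k3 2)]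
    refine lt_trans ?_ k1
    have k5 : B * (R a b x : ℝ) ^ 2 = B * ((R a b x : ℝ) ^ 2 / Real.log x ^ m) * Real.log x ^ m := by
      field_simp
    rw [k5]
    exact mul_lt_mul_of_pos_right k2 hlp
  · intro hrm B
    by_contra hcon
    rw [not_frequently] at hcon
    have h3 : ∀ᶠ x : ℝ in atTop, P a b x ≤ B * (R a b x : ℝ) ^ 2 := by
      filter_upwards [hcon, hR1] with x k1 k2
      push Not at k1
      rwa [div_le_iff₀ (pow_pos k2 2)] at k1
    have h4 := Pool.Agent.D0H40.PL.one_upper hF' hm (ρ := (r : ℝ)) (fun ε hε => by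
      filter_upwards [h3, (Pool.Agent.D0H93.RP.rsq_bounds hκ0 hR (C := B) hε).1] with x h4 h5
      rw [← P_eq]
      exact h4.trans h5)
    have h5 : (m : ℝ) ≤ r := h4.2
    have h6 : m ≤ r := by exact_mod_cast h5
    omega

end Pool.Agent.Results.MP_3283e1_nt.ProductsAgainstPoints
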